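import Mathlib
import Pool.Agent.Helper997.NeST

/-!
Not every NeST graph is a bounded NeST graph.
-/

namespace Pool.Agent.Results.MP_123300_co.Main

open Metric Set Pool.Agent.Helper997.NeST

/-! ### A star with `p` legs of length `L` -/

/-- The `ℓ¹` space containing the star. -/
abbrev E (p : ℕ) := PiLp 1 (fun _ : Fin p => ℝ)

/-- The point on the `i`-th axis at height `s`. -/
noncomputable def ax {p : ℕ} (i : Fin p) (s : ℝ) : E p := WithLp.toLp 1 (Pi.single i s)

/-- The star with `p` legs of length `L`, a subset of the union of the axes in the `ℓ¹` space. -/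
def starSet (p : ℕ) (L : ℝ) : Set (E p) := {x | ∃ i s, 0 ≤ s ∧ s ≤ L ∧ x = ax i s}

lemma dist_ax_same {p : ℕ} (i : Fin p) (s t : ℝ) : dist (ax i s) (ax i t) = |s - t| := by
  rw [PiLp.dist_eq_of_L1]
  rw [Finset.sum_eq_single i]
  · simp [ax, Real.dist_eq]
  · intro k _ hk
    simp [ax, hk]
  · intro h
    exact absurd (Finset.mem_univ i) h

lemma dist_ax_ne {p : ℕ} {i j : Fin p} (hij : i ≠ j) {s t : ℝ} (hs : 0 ≤ s) (ht : 0 ≤ t) :
    dist (ax i s) (ax j t) = s + t := by
  rw [PiLp.dist_eq_of_L1]
  have h1 : ∀ k, dist ((ax i s : E p) k) ((ax j t : E p) k) =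
      (Pi.single i s : Fin p → ℝ) k + (Pi.single j t : Fin p → ℝ) k := by
    intro k
    by_cases hki : k = i
    · subst hki
      simp [ax, hij, abs_of_nonneg hs]
    · by_cases hkj : k = j
      · subst hkj
        simp [ax, Real.dist_eq, hij.symm, abs_of_nonneg ht]
      · simp [ax, hki, hkj]
  rw [Finset.sum_congr rfl (fun k _ => h1 k), Finset.sum_add_distrib]
  simp

/-- Points of the star. -/
noncomputable def pt {p : ℕ} {L : ℝ} (i : Fin p) (s : ℝ) (h0 : 0 ≤ s) (hL : s ≤ L) :
    starSet p L := ⟨ax i s, i, s, h0, hL, rfl⟩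

lemma exists_pt {p : ℕ} {L : ℝ} (x : starSet p L) :
    ∃ i s, ∃ (h0 : 0 ≤ s) (hL : s ≤ L), x = pt i s h0 hL := by
  obtain ⟨x, i, s, h0, hL, rfl⟩ := x
  exact ⟨i, s, h0, hL, rfl⟩

lemma dist_pt {p : ℕ} {L : ℝ} (i j : Fin p) {s t : ℝ} (h0 : 0 ≤ s) (hL : s ≤ L)
    (h0' : 0 ≤ t) (hL' : t ≤ L) :
    dist (pt i s h0 hL : starSet p L) (pt j t h0' hL') = if i = j then |s - t| else s + t := by
  rw [Subtype.dist_eq]
  by_cases hij : i = j
  · subst hij
    rw [if_pos rfl]
    exact dist_ax_same i s t
  · rw [if_neg hij]
    exact dist_ax_ne hij h0 h0'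

/-- The Gromov product at the centre of the star. -/
noncomputable def pr {p : ℕ} (i j : Fin p) (s t : ℝ) : ℝ := if i = j then min s t else 0

lemma dist_pt' {p : ℕ} {L : ℝ} (i j : Fin p) {s t : ℝ} (h0 : 0 ≤ s) (hL : s ≤ L)
    (h0' : 0 ≤ t) (hL' : t ≤ L) :
    dist (pt i s h0 hL : starSet p L) (pt j t h0' hL') = s + t - 2 * pr i j s t := by
  rw [dist_pt, pr]
  by_cases hij : i = j
  · rw [if_pos hij, if_pos hij]
    rcases le_total s t with h | h
    · rw [min_eq_left h, abs_of_nonpos (by linarith)]
      ring
    · rw [min_eq_right h, abs_of_nonneg (by linarith)]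
      ring
  · rw [if_neg hij, if_neg hij]
    ring

lemma pr_ultra {p : ℕ} (i j k : Fin p) {s t u : ℝ} (hs : 0 ≤ s) (hu : 0 ≤ u) :
    min (pr i j s t) (pr j k t u) ≤ pr i k s u := by
  unfold pr
  by_cases hij : i = j
  · subst hij
    by_cases hik : i = k
    · subst hik
      simp only [if_true]
      exact le_min ((min_le_left _ _).trans (min_le_left _ _))
        ((min_le_right _ _).trans (min_le_right _ _))
    · rw [if_neg hik, if_neg hik]
      exact min_le_right _ _
  · rw [if_neg hij]
    by_cases hik : i = k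
    · rw [if_pos hik]
      exact (min_le_left _ _).trans (le_min hs hu)
    · rw [if_neg hik]
      exact min_le_left _ _

lemma pr_comm {p : ℕ} (i j : Fin p) (s t : ℝ) : pr i j s t = pr j i t s := by
  unfold pr
  by_cases hij : i = j
  · rw [if_pos hij, if_pos hij.symm, min_comm]
  · rw [if_neg hij, if_neg (fun e => hij e.symm)]

/-- From the ultrametric inequality to the four-point inequality. -/
lemma four_of_ultra {xy zw a b c d : ℝ} (h1 : min a d ≤ xy) (h2 : min c b ≤ xy)
    (h3 : min a c ≤ zw) (h4 : min d b ≤ zw) : a + b ≤ xy + zw ∨ c + d ≤ xy + zw := by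
  rcases le_total a d with had | had <;> rcases le_total c b with hcb | hcb <;>
  rcases le_total a c with hac | hac <;> rcases le_total d b with hdb | hdb <;>
  simp only [min_eq_left, min_eq_right, had, hcb, hac, hdb] at h1 h2 h3 h4 <;>
  first
  | (left; linarith)
  | (right; linarith)

lemma star_tree (p : ℕ) (hp : 0 < p) (L : ℝ) (hL : 0 ≤ L) : IsEmbeddedTree (starSet p L) where
  nonempty := ⟨pt ⟨0, hp⟩ 0 le_rfl hL⟩
  geodesic := by
    intro x y u hu0 hu
    obtain ⟨i, s, hs0, hsL, rfl⟩ := exists_pt x
    obtain ⟨j, t, ht0, htL, rfl⟩ := exists_pt y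
    rw [dist_pt] at hu ⊢
    by_cases hij : i = j
    · subst hij
      rw [if_pos rfl] at hu ⊢
      rcases le_total s t with h | h
      · rw [abs_of_nonpos (by linarith)] at hu ⊢
        refine ⟨pt i (s + u) (by linarith) (by linarith), ?_, ?_⟩
        · rw [dist_pt, if_pos rfl, abs_of_nonpos (by linarith)]
          ring
        · rw [dist_pt, if_pos rfl, abs_of_nonpos (by linarith)]
          ring
      · rw [abs_of_nonneg (by linarith)] at hu ⊢
        refine ⟨pt i (s - u) (by linarith) (by linarith), ?_, ?_⟩
        · rw [dist_pt, if_pos rfl, abs_of_nonneg (by linarith)]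
          ring
        · rw [dist_pt, if_pos rfl, abs_of_nonneg (by linarith)]
          ring
    · rw [if_neg hij] at hu ⊢
      rcases le_total u s with h | h
      · refine ⟨pt i (s - u) (by linarith) (by linarith), ?_, ?_⟩
        · rw [dist_pt, if_pos rfl, abs_of_nonneg (by linarith)]
          ring
        · rw [dist_pt, if_neg hij]
          ring
      · refine ⟨pt j (u - s) (by linarith) (by linarith), ?_, ?_⟩
        · rw [dist_pt, if_neg hij]
          ring
        · rw [dist_pt, if_pos rfl, abs_of_nonpos (by linarith)]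
          ring
  fourPoint := by
    intro x y z w
    obtain ⟨i, s, hs0, hsL, rfl⟩ := exists_pt x
    obtain ⟨j, t, ht0, htL, rfl⟩ := exists_pt y
    obtain ⟨k, u, hu0, huL, rfl⟩ := exists_pt z
    obtain ⟨l, v, hv0, hvL, rfl⟩ := exists_pt w
    simp only [dist_pt']
    have h1 := pr_ultra (t := u) i k j hs0 ht0
    have h2 := pr_ultra (t := v) i l j hs0 ht0
    have h3 := pr_ultra (t := s) k i l hu0 hv0
    have h4 := pr_ultra (t := t) k j l hu0 hv0
    rw [pr_comm k j] at h1
    rw [pr_comm l j] at h2
    rw [pr_comm k i] at h3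
    rw [pr_comm k j] at h4
    rcases four_of_ultra h1 h2 h3 h4 with h5 | h5
    · apply le_max_of_le_left
      linarith
    · apply le_max_of_le_right
      linarith
  spanned := by
    refine ⟨range (fun i : Fin p => (pt i L hL le_rfl : starSet p L)) ∪
      {pt ⟨0, hp⟩ 0 le_rfl hL}, (finite_range _).union (finite_singleton _), ?_⟩
    intro x
    obtain ⟨i, s, hs0, hsL, rfl⟩ := exists_pt x
    refine ⟨pt ⟨0, hp⟩ 0 le_rfl hL, Or.inr rfl, pt i L hL le_rfl, Or.inl ⟨i, rfl⟩, ?_⟩
    rw [dist_pt, dist_pt, dist_pt]
    by_cases hi : (⟨0, hp⟩ : Fin p) = i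
    · rw [if_pos hi, if_pos rfl, if_pos hi, abs_of_nonpos (by linarith),
        abs_of_nonpos (by linarith), abs_of_nonpos (by linarith)]
      ring
    · rw [if_neg hi, if_pos rfl, if_neg hi, abs_of_nonpos (by linarith)]
      ring

/-- Neighborhoods that fit into the star have full size. -/
lemma star_size {p : ℕ} {L : ℝ} (i i' : Fin p) (hi : i ≠ i') {s r : ℝ} (h0 : 0 ≤ s) (hsL : s ≤ L)
    (hr : 0 < r) (h1 : s + r ≤ L) :
    diam (closedBall (pt i s h0 hsL : starSet p L) r) = 2 * r := by
  apply le_antisymm (diam_closedBall hr.le)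
  have hb : Bornology.IsBounded (closedBall (pt i s h0 hsL : starSet p L) r) :=
    isBounded_closedBall
  have hu : (pt i (s + r) (by linarith) h1 : starSet p L) ∈ closedBall (pt i s h0 hsL) r := by
    rw [mem_closedBall, dist_pt, if_pos rfl, abs_of_nonneg (by linarith)]
    linarith
  rcases le_total r s with h | h
  · have hv : (pt i (s - r) (by linarith) (by linarith) : starSet p L) ∈
        closedBall (pt i s h0 hsL) r := by
      rw [mem_closedBall, dist_pt, if_pos rfl, abs_of_nonpos (by linarith)]
      linarith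
    refine le_trans (le_of_eq ?_) (dist_le_diam_of_mem hb hu hv)
    rw [dist_pt, if_pos rfl, abs_of_nonneg (by linarith)]
    ring
  · have hv : (pt i' (r - s) (by linarith) (by linarith) : starSet p L) ∈
        closedBall (pt i s h0 hsL) r := by
      rw [mem_closedBall, dist_pt, if_neg hi.symm]
      linarith
    refine le_trans (le_of_eq ?_) (dist_le_diam_of_mem hb hu hv)
    rw [dist_pt, if_neg hi]
    ring

/-! ### The representation of the grid graph -/

section Rep

variable {p q : ℕ}

/-- The index of a column as a positive real number. -/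
noncomputable def J (j : Fin q) : ℝ := (j : ℝ) + 1

lemma J_pos (j : Fin q) : 1 ≤ J j := by
  unfold J
  have : (0 : ℝ) ≤ (j : ℝ) := Nat.cast_nonneg _
  linarith

lemma J_le (j : Fin q) : J j ≤ q := by
  unfold J
  have : ((j : ℕ) : ℝ) + 1 ≤ (q : ℝ) := by exact_mod_cast j.isLt
  exact this

lemma J_lt {j j' : Fin q} (h : j < j') : J j < J j' := by
  unfold J
  have : ((j : ℕ) : ℝ) < ((j' : ℕ) : ℝ) := by exact_mod_cast h
  linarith

/-- The leg on which the centre lies. -/
def leg (i₀ : Fin p) : Vtx p q → Fin p
  | .a i _ => i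
  | .b i _ => i
  | .α _ => i₀
  | .β i => i

/-- The distance of the centre from the centre of the star. -/
noncomputable def pos : Vtx p q → ℝ
  | .a _ j => J j
  | .b _ j => 2 * J j
  | .α _ => 0
  | .β _ => q

/-- The radius. -/
noncomputable def rad : Vtx p q → ℝ
  | .a _ j => 2 * J j
  | .b _ j => J j
  | .α j => 3 * J j
  | .β _ => q

/-- The tolerance. -/
noncomputable def tol : Vtx p q → ℝ
  | .a _ j => 2 * J j
  | .b _ _ => 4 * q
  | .α j => 2 * J j
  | .β _ => 4 * q

lemma pos_nonneg (v : Vtx p q) : 0 ≤ pos v := by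
  cases v with
  | a i j => have := J_pos j; simp only [pos]; linarith
  | b i j => have := J_pos j; simp only [pos]; linarith
  | α j => simp only [pos]; exact le_rfl
  | β i => simp only [pos]; exact Nat.cast_nonneg _

lemma rad_pos (hq : 0 < q) (v : Vtx p q) : 0 < rad v := by
  cases v with
  | a i j => have := J_pos j; simp only [rad]; linarith
  | b i j => have := J_pos j; simp only [rad]; linarith
  | α j => have := J_pos j; simp only [rad]; linarith
  | β i => simp only [rad]; exact_mod_cast hq

lemma tol_pos (hq : 0 < q) (v : Vtx p q) : 0 < tol v := by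
  have hq' : (0 : ℝ) < q := by exact_mod_cast hq
  cases v with
  | a i j => have := J_pos j; simp only [tol]; linarith
  | b i j => simp only [tol]; linarith
  | α j => have := J_pos j; simp only [tol]; linarith
  | β i => simp only [tol]; linarith

lemma pos_add_rad (v : Vtx p q) : pos v + rad v ≤ 3 * q := by
  have hq' : (0 : ℝ) ≤ q := Nat.cast_nonneg _
  cases v with
  | a i j => have := J_le j; simp only [pos, rad]; linarith
  | b i j => have := J_le j; simp only [pos, rad]; linarith
  | α j => have := J_le j; simp only [pos, rad]; linarith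
  | β i => simp only [pos, rad]; linarith

/-- The distance between centres. -/
noncomputable def dst (i₀ : Fin p) (x y : Vtx p q) : ℝ :=
  if leg i₀ x = leg i₀ y then |pos x - pos y| else pos x + pos y

lemma dst_comm (i₀ : Fin p) (x y : Vtx p q) : dst i₀ x y = dst i₀ y x := by
  unfold dst
  by_cases h : leg i₀ x = leg i₀ y
  · rw [if_pos h, if_pos h.symm, abs_sub_comm]
  · rw [if_neg h, if_neg (fun e => h e.symm), add_comm]

/-- The adjacency rule for the representation of the grid graph. -/
def Rule (i₀ : Fin p) (x y : Vtx p q) : Prop :=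
  (gridGraph p q).Adj x y ↔
    min (tol x) (tol y) ≤ min (min (2 * rad x) (2 * rad y)) (rad x + rad y - dst i₀ x y)

lemma Rule.symm {i₀ : Fin p} {x y : Vtx p q} (h : Rule i₀ x y) : Rule i₀ y x := by
  unfold Rule at h ⊢
  rw [(gridGraph p q).adj_comm, h, dst_comm i₀ y x, min_comm (tol y), min_comm (2 * rad y),
    add_comm (rad y)]

lemma dst_zero_left (i₀ : Fin p) {x y : Vtx p q} (hx : pos x = 0) : dst i₀ x y = pos y := by
  unfold dst
  have := pos_nonneg y
  by_cases h : leg i₀ x = leg i₀ y
  · rw [if_pos h, hx, zero_sub, abs_neg, abs_of_nonneg this]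
  · rw [if_neg h, hx, zero_add]

lemma dst_le (i₀ : Fin p) (x y : Vtx p q) : dst i₀ x y ≤ pos x + pos y := by
  unfold dst
  have hx := pos_nonneg x
  have hy := pos_nonneg y
  by_cases h : leg i₀ x = leg i₀ y
  · rw [if_pos h, abs_le]
    constructor <;> linarith
  · rw [if_neg h]

lemma rule_true {i₀ : Fin p} {x y : Vtx p q} (h : (gridGraph p q).Adj x y)
    (h1 : tol x ≤ 2 * rad x) (h2 : tol x ≤ 2 * rad y) (h3 : tol x ≤ rad x + rad y - dst i₀ x y) :
    Rule i₀ x y :=
  iff_of_true h ((min_le_left _ _).trans (le_min (le_min h1 h2) h3))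

lemma rule_false {i₀ : Fin p} {x y : Vtx p q} (h : ¬ (gridGraph p q).Adj x y)
    (h1 : (2 * rad x < tol x ∧ 2 * rad x < tol y) ∨ (2 * rad y < tol x ∧ 2 * rad y < tol y) ∨
      (rad x + rad y - dst i₀ x y < tol x ∧ rad x + rad y - dst i₀ x y < tol y)) :
    Rule i₀ x y := by
  refine iff_of_false h ?_
  rw [not_le]
  rcases h1 with ⟨a, b⟩ | ⟨a, b⟩ | ⟨a, b⟩
  · exact lt_of_le_of_lt ((min_le_left _ _).trans (min_le_left _ _)) (lt_min a b)
  · exact lt_of_le_of_lt ((min_le_left _ _).trans (min_le_right _ _)) (lt_min a b)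
  · exact lt_of_le_of_lt (min_le_right _ _) (lt_min a b)

lemma rule_aa (i₀ : Fin p) (i i' : Fin p) (j j' : Fin q) (hne : Vtx.a i j ≠ Vtx.a i' j') :
    Rule i₀ (.a i j) (.a i' j') := by
  have hadj : (gridGraph p q).Adj (.a i j) (.a i' j') := by
    simp [gridGraph, link] at hne ⊢
    exact hne
  have h1 := J_pos j
  have h2 := J_pos j'
  have hd := dst_le i₀ (.a i j) (.a i' j')
  simp only [pos] at hd
  rcases le_total (J j) (J j') with h | h
  · apply rule_true hadj <;> simp only [tol, rad] <;> linarith
  · have hd' := hd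
    rw [dst_comm] at hd'
    apply Rule.symm
    apply rule_true hadj.symm <;> simp only [tol, rad] <;> linarith

lemma rule_ab (i₀ : Fin p) (i i' : Fin p) (j j' : Fin q) :
    Rule i₀ (.a i j) (.b i' j') := by
  have h1 := J_pos j
  have h2 := J_pos j'
  have h3 := J_le j
  have h4 := J_le j'
  by_cases hi : i = i'
  · subst hi
    have hd : dst i₀ (.a i j) (.b i j') = |J j - 2 * J j'| := by
      simp only [dst, leg, pos, if_true]
    rcases lt_trichotomy j j' with h | h | h
    · have hJ := J_lt h
      apply rule_false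
      · rw [adj_ab]
        exact fun e => h.ne e.2
      · right; right
        rw [hd, abs_of_nonpos (by linarith)]
        simp only [tol, rad]
        constructor <;> linarith
    · subst h
      apply rule_true
      · rw [adj_ab]
        exact ⟨rfl, rfl⟩
      · simp only [tol, rad]
        linarith
      · simp only [tol, rad]
        linarith
      · rw [hd, abs_of_nonpos (by linarith)]
        simp only [tol, rad]
        linarith
    · have hJ := J_lt h
      apply rule_false
      · rw [adj_ab]
        exact fun e => h.ne e.2.symm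
      · right; left
        simp only [tol, rad]
        constructor <;> linarith
  · apply rule_false
    · rw [adj_ab]
      exact fun e => hi e.1
    · right; right
      have hd : dst i₀ (.a i j) (.b i' j') = J j + 2 * J j' := by
        simp only [dst, leg, pos]
        exact if_neg hi
      rw [hd]
      simp only [tol, rad]
      constructor <;> linarith

lemma rule_aα (i₀ : Fin p) (i : Fin p) (j j' : Fin q) : Rule i₀ (.a i j) (.α j') := by
  have hadj : (gridGraph p q).Adj (.a i j) (.α j') := by
    simp [gridGraph, link]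
  have h1 := J_pos j
  have h2 := J_pos j'
  have hd := dst_le i₀ (.a i j) (.α j')
  simp only [pos] at hd
  rcases le_total (J j) (J j') with h | h
  · apply rule_true hadj <;> simp only [tol, rad] <;> linarith
  · have hd' := hd
    rw [dst_comm] at hd'
    apply Rule.symm
    apply rule_true hadj.symm <;> simp only [tol, rad] <;> linarith

lemma rule_aβ (i₀ : Fin p) (i i' : Fin p) (j : Fin q) : Rule i₀ (.a i j) (.β i') := by
  have h1 := J_pos j
  have h3 := J_le j
  by_cases hi : i = i'
  · subst hi
    have hd : dst i₀ (.a i j) (.β i) = |J j - q| := by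
      simp only [dst, leg, pos, if_true]
    apply rule_true
    · rw [adj_aβ]
    · simp only [tol, rad]
      linarith
    · simp only [tol, rad]
      linarith
    · rw [hd, abs_of_nonpos (by linarith)]
      simp only [tol, rad]
      linarith
  · apply rule_false
    · rw [adj_aβ]
      exact hi
    · right; right
      have hd : dst i₀ (.a i j) (.β i') = J j + q := by
        simp only [dst, leg, pos]
        exact if_neg hi
      rw [hd]
      simp only [tol, rad]
      constructor <;> linarith

lemma rule_αα (i₀ : Fin p) (j j' : Fin q) (hne : (Vtx.α j : Vtx p q) ≠ Vtx.α j') :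
    Rule i₀ (.α j : Vtx p q) (.α j') := by
  have hadj : (gridGraph p q).Adj (.α j) (.α j') := by
    simp [gridGraph, link] at hne ⊢
    exact hne
  have h1 := J_pos j
  have h2 := J_pos j'
  have hd := dst_le i₀ (.α j) (.α j')
  simp only [pos] at hd
  rcases le_total (J j) (J j') with h | h
  · apply rule_true hadj <;> simp only [tol, rad] <;> linarith
  · have hd' := hd
    rw [dst_comm] at hd'
    apply Rule.symm
    apply rule_true hadj.symm <;> simp only [tol, rad] <;> linarith

lemma rule_αb (i₀ : Fin p) (i : Fin p) (j j' : Fin q) : Rule i₀ (.α j) (.b i j') := by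
  have h1 := J_pos j
  have h2 := J_pos j'
  have h3 := J_le j
  have h4 := J_le j'
  have hd : dst i₀ (.α j) (.b i j') = 2 * J j' := by
    rw [dst_zero_left i₀ (by simp only [pos])]
    simp only [pos]
  have hadj : (gridGraph p q).Adj (.α j) (.b i j') ↔ j = j' := by
    rw [(gridGraph p q).adj_comm, adj_bα]
  rcases lt_trichotomy j j' with h | h | h
  · have hJ := J_lt h
    apply rule_false
    · rw [hadj]
      exact h.ne
    · right; right
      rw [hd]
      simp only [tol, rad]
      constructor <;> linarith
  · subst h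
    apply rule_true
    · rw [hadj]
    · simp only [tol, rad]
      linarith
    · simp only [tol, rad]
      linarith
    · rw [hd]
      simp only [tol, rad]
      linarith
  · have hJ := J_lt h
    apply rule_false
    · rw [hadj]
      exact fun e => h.ne e.symm
    · right; left
      simp only [tol, rad]
      constructor <;> linarith

lemma rule_αβ (i₀ : Fin p) (i : Fin p) (j : Fin q) : Rule i₀ (.α j) (.β i) := by
  have h1 := J_pos j
  have h3 := J_le j
  have hd : dst i₀ (.α j) (.β i) = (q : ℝ) := by
    rw [dst_zero_left i₀ (by simp only [pos])]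
    simp only [pos]
  apply rule_true
  · simp [gridGraph, link]
  · simp only [tol, rad]
    linarith
  · simp only [tol, rad]
    linarith
  · rw [hd]
    simp only [tol, rad]
    linarith

lemma rule_bb (i₀ : Fin p) (i i' : Fin p) (j j' : Fin q) : Rule i₀ (.b i j) (.b i' j') := by
  have h1 := J_pos j
  have h3 := J_le j
  apply rule_false
  · simp [gridGraph, link]
  · left
    simp only [tol, rad]
    constructor <;> linarith

lemma rule_bβ (i₀ : Fin p) (i i' : Fin p) (j : Fin q) : Rule i₀ (.b i j) (.β i') := by
  have h1 := J_pos j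
  have h3 := J_le j
  apply rule_false
  · simp [gridGraph, link]
  · left
    simp only [tol, rad]
    constructor <;> linarith

lemma rule_ββ (hq : 0 < q) (i₀ : Fin p) (i i' : Fin p) :
    Rule i₀ (.β i : Vtx p q) (.β i') := by
  have hq' : (0 : ℝ) < q := by exact_mod_cast hq
  apply rule_false
  · simp [gridGraph, link]
  · left
    simp only [tol, rad]
    constructor <;> linarith

lemma rule_all (hq : 0 < q) (i₀ : Fin p) (x y : Vtx p q) (hne : x ≠ y) : Rule i₀ x y := by
  cases x with
  | a i j =>
    cases y with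
    | a i' j' => exact rule_aa i₀ i i' j j' hne
    | b i' j' => exact rule_ab i₀ i i' j j'
    | α j' => exact rule_aα i₀ i j j'
    | β i' => exact rule_aβ i₀ i i' j
  | b i j =>
    cases y with
    | a i' j' => exact (rule_ab i₀ i' i j' j).symm
    | b i' j' => exact rule_bb i₀ i i' j j'
    | α j' => exact (rule_αb i₀ i j' j).symm
    | β i' => exact rule_bβ i₀ i i' j
  | α j =>
    cases y with
    | a i' j' => exact (rule_aα i₀ i' j' j).symm
    | b i' j' => exact rule_αb i₀ i' j j'
    | α j' => exact rule_αα i₀ j j' hne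
    | β i' => exact rule_αβ i₀ i' j
  | β i =>
    cases y with
    | a i' j' => exact (rule_aβ i₀ i' i j').symm
    | b i' j' => exact (rule_bβ i₀ i' i j').symm
    | α j' => exact (rule_αβ i₀ i j').symm
    | β i' => exact rule_ββ hq i₀ i i'

/-- Every grid graph with at least two rows is a NeST graph. -/
theorem gridGraph_isNeST (hp : 1 < p) (hq : 0 < q) : IsNeST (gridGraph p q) := by
  have hL : (0 : ℝ) ≤ 3 * q := by positivity
  have hT := star_tree p (by omega) (3 * q) hL
  let i₀ : Fin p := ⟨0, by omega⟩
  let i₁ : Fin p := ⟨1, hp⟩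
  have h01 : i₀ ≠ i₁ := by
    intro e
    exact absurd (Fin.mk.inj_iff.mp e) (by norm_num)
  have hle : ∀ v : Vtx p q, pos v ≤ 3 * q := by
    intro v
    have h1 := pos_add_rad v
    have h2 := rad_pos hq v
    linarith
  let c : Vtx p q → starSet p (3 * q) := fun v => pt (leg i₀ v) (pos v) (pos_nonneg v) (hle v)
  have hs : ∀ v, diam (closedBall (c v) (rad v)) = 2 * rad v := by
    intro v
    by_cases h : leg i₀ v = i₀
    · exact star_size (leg i₀ v) i₁ (by rw [h]; exact h01) (pos_nonneg v) (hle v)
        (rad_pos hq v) (pos_add_rad v)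
    · exact star_size (leg i₀ v) i₀ h (pos_nonneg v) (hle v)
        (rad_pos hq v) (pos_add_rad v)
  refine ⟨starSet p (3 * q), inferInstance, hT, c, rad, tol, rad_pos hq, tol_pos hq, hs, ?_⟩
  intro x y hxy
  rw [adj_iff_dist hT (rad_pos hq) (tol_pos hq) hs x y]
  have hd : dist (c x) (c y) = dst i₀ x y := dist_pt _ _ _ _ _ _
  rw [hd]
  exact rule_all hq i₀ x y hxy

end Rep

/-- Not every NeST graph is a bounded NeST graph: the two classes are different. -/
theorem result : ∃ (V : Type) (_ : Fintype V) (G : SimpleGraph V), IsNeST G ∧ ¬ IsBoundedNeST G :=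
  ⟨Vtx 9 1297, inferInstance, gridGraph 9 1297, gridGraph_isNeST (by norm_num) (by norm_num),
    gridGraph_not_bounded (by norm_num) (by norm_num)⟩

end Pool.Agent.Results.MP_123300_co.Main
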